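import Pool.Agent.H466.HP.Stm

set_option autoImplicit false

/-!
# Exponential moment of the distance of the zeros from the line
-/

namespace Pool.Agent.H548.HP

open Complex Set Filter Topology
open Pool.Agent.H862.VK (Yz Yz_eq Yz_neg Yz_ne Yz_diff)
open Pool.Agent.H466.HP
open Pool.Agent.Y24.Near

/-- orders of the zeros of `Yz` and of zeta -/
theorem order_eq {b : ℂ} (h1 : b.im ≠ 0) (h2 : -(1 / 2) < b.re) :
    analyticOrderAt Yz b = analyticOrderAt riemannZeta (1 / 2 + b) := by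
  have him : (1 / 2 + b).im ≠ 0 := by
    rw [add_im]
    norm_num
    exact h1
  set g : ℂ → ℂ := fun z => (1 / 2 + z) * Gammaℝ (1 / 2 + z) * (z - 1 / 2) with hg
  have hev : Yz =ᶠ[𝓝 b] (g * (riemannZeta ∘ fun z => 1 / 2 + z)) := by
    have m1 : {y : ℂ | -(1 / 2) < y.re} ∈ 𝓝 b :=
      (isOpen_lt continuous_const continuous_re).mem_nhds h2
    have m2 : {y : ℂ | y.im ≠ 0} ∈ 𝓝 b :=
      (isOpen_ne_fun continuous_im continuous_const).mem_nhds h1
    filter_upwards [m1, m2] with y hy hy'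
    have hy1 : y ≠ 1 / 2 := by
      intro h
      apply hy'
      rw [h]
      norm_num
    rw [Yz_eq hy hy1, Pi.mul_apply, hg]
    simp only [Function.comp_apply]
    ring
  have hga : AnalyticAt ℂ g b := by
    have a1 : AnalyticAt ℂ (fun z : ℂ => Gammaℝ (1 / 2 + z)) b :=
      AnalyticAt.fun_comp (f := fun z : ℂ => 1 / 2 + z) (g := Gammaℝ)
        (H370.DL.analyticAt_Gammaℝ him) (by fun_prop)
    have a2 : AnalyticAt ℂ (fun z : ℂ => 1 / 2 + z) b := by fun_prop
    have a3 : AnalyticAt ℂ (fun z : ℂ => z - 1 / 2) b := by fun_prop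
    exact (a2.mul a1).mul a3
  have hgb : g b ≠ 0 := by
    rw [hg]
    refine mul_ne_zero (mul_ne_zero ?_ (H370.DL.Gammaℝ_ne_zero_of_im him)) ?_
    · intro h
      apply him
      rw [h]
      rfl
    · intro h
      apply h1
      have : b = 1 / 2 := sub_eq_zero.1 h
      rw [this]
      norm_num
  have hcomp : analyticOrderAt (riemannZeta ∘ fun z : ℂ => 1 / 2 + z) b =
      analyticOrderAt riemannZeta (1 / 2 + b) := by
    refine analyticOrderAt_comp_of_deriv_ne_zero (g := fun z : ℂ => 1 / 2 + z) (by fun_prop) ?_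
    have : HasDerivAt (fun z : ℂ => 1 / 2 + z) 1 b := (hasDerivAt_id b).const_add _
    rw [this.deriv]
    exact one_ne_zero
  have hza : AnalyticAt ℂ (riemannZeta ∘ fun z : ℂ => 1 / 2 + z) b :=
    AnalyticAt.comp (g := riemannZeta) (f := fun z : ℂ => 1 / 2 + z)
      (zeta_an (ne_one him)) (by fun_prop)
  rw [analyticOrderAt_congr hev, analyticOrderAt_mul hga hza,
    hga.analyticOrderAt_eq_zero.mpr hgb, zero_add, hcomp]

theorem mu_eq {b : ℂ} (h1 : b.im ≠ 0) (h2 : -(1 / 2) < b.re) : mu b = m (1 / 2 + b) := by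
  unfold mu m analyticOrderNatAt
  rw [order_eq h1 h2]

theorem mu_neg (b : ℂ) : mu (-b) = mu b := by
  unfold mu analyticOrderNatAt
  have e : Yz = Yz ∘ fun z => -z := by
    funext z
    exact (Yz_neg z).symm
  have h : analyticOrderAt (Yz ∘ fun z : ℂ => -z) b = analyticOrderAt Yz (-b) := by
    refine analyticOrderAt_comp_of_deriv_ne_zero (g := fun z : ℂ => -z) (by fun_prop) ?_
    have : HasDerivAt (fun z : ℂ => -z) (-1) b := (hasDerivAt_id b).neg
    rw [this.deriv]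
    norm_num
  rw [← e] at h
  rw [h]

theorem re_bound {b : ℂ} (h : Yz b = 0) : -(1 / 2) < b.re ∧ b.re < 1 / 2 := by
  constructor
  · by_contra hcon
    push Not at hcon
    refine Yz_ne (z := -b) (by rw [neg_re]; linarith) ?_
    rw [Yz_neg, h]
  · by_contra hcon
    push Not at hcon
    exact Yz_ne hcon h

theorem zeta_zero {b : ℂ} (h : Yz b = 0) (h1 : b.im ≠ 0) : riemannZeta (1 / 2 + b) = 0 := by
  have h2 := (re_bound h).1
  have h3 := order_eq h1 h2
  have h4 : analyticOrderAt Yz b ≠ 0 := fun h0 =>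
    ((Yz_diff.analyticAt b).analyticOrderAt_eq_zero.mp h0) h
  rw [h3] at h4
  by_contra hcon
  apply h4
  refine (zeta_an (ne_one ?_)).analyticOrderAt_eq_zero.mpr hcon
  rw [add_im]
  norm_num
  exact h1

theorem mem_Z {b : ℂ} {T : ℝ} (h : Yz b = 0) (h1 : 0 < b.im) (h2 : b.im ≤ T) :
    1 / 2 + b ∈ Z T := by
  obtain ⟨h3, h4⟩ := re_bound h
  have e1 : (1 / 2 + b).re = 1 / 2 + b.re := Pool.Agent.H862.VK.half_re b
  have e2 : (1 / 2 + b).im = b.im := by
    rw [add_im]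
    norm_num
  refine ⟨zeta_zero h h1.ne', ?_, ?_, ?_, ?_⟩
  · rw [e1]; linarith
  · rw [e1]; linarith
  · rw [e2]; exact h1
  · rw [e2]; exact h2

/-- upper bound for the number of the zeros -/
theorem cnt_le : ∃ C : ℝ, 0 < C ∧ ∀ T : ℝ, 2 ≤ T → cnt (Z T) ≤ C * T * Real.log T := by
  obtain ⟨C, hC, h⟩ := Pool.Agent.Y24.total_count
  refine ⟨2 * C, by positivity, fun T hT => ?_⟩
  have hA : {ρ | ρ ∈ Z T ∧ ρ.re ≤ 1 / 2 - 0}.Finite := (Z_fin T).subset fun _ h => h.1
  have hB : {ρ | ρ ∈ Z T ∧ 1 / 2 + 0 ≤ ρ.re}.Finite := (Z_fin T).subset fun _ h => h.1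
  have hcov : Z T ⊆ {ρ | ρ ∈ Z T ∧ ρ.re ≤ 1 / 2 - 0} ∪ {ρ | ρ ∈ Z T ∧ 1 / 2 + 0 ≤ ρ.re} := by
    intro ρ hρ
    rcases le_total ρ.re (1 / 2) with h1 | h1
    · left; exact ⟨hρ, by linarith⟩
    · right; exact ⟨hρ, by linarith⟩
  have h1 := (cnt_mono hcov (hA.union hB)).trans (cnt_union hA hB)
  rw [cnt_left 0 T] at h1
  have h2 : cnt {ρ | ρ ∈ Z T ∧ 1 / 2 + 0 ≤ ρ.re} ≤ C * T * Real.log T := by
    rw [cnt_eq hB]
    refine h T hT _ ?_
    intro ρ hρ
    rw [Set.Finite.mem_toFinset] at hρ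
    exact ⟨hρ.1.1, by linarith [hρ.2], hρ.1.2.2.2.1, hρ.1.2.2.2.2⟩
  linarith

/-- the exponential moment for the zeros of zeta -/
theorem zeta_moment : ∃ C : ℝ, 0 < C ∧ ∀ T : ℝ, 2 ≤ T →
    ∑ ρ ∈ (Z_fin T).toFinset, m ρ * Real.exp (Real.log T / 4 * |ρ.re - 1 / 2|) ≤
      C * T * Real.log T := by
  classical
  obtain ⟨C₁, hC₁, hnear⟩ := near (c := 1) (by norm_num)
  obtain ⟨C₂, hC₂, hcnt⟩ := cnt_le
  set q : ℝ := Real.exp (-(3 / 4)) with hq
  have hq0 : 0 < q := Real.exp_pos _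
  have hq1 : q < 1 := Real.exp_lt_one_iff.mpr (by norm_num)
  refine ⟨Real.exp (1 / 4) * C₁ * C₂ * (1 - q)⁻¹, by
    have : 0 < 1 - q := by linarith
    positivity, fun T hT => ?_⟩
  have hlog : 0 < Real.log T := Real.log_pos (by linarith)
  set L := Real.log T with hL
  set K : ℕ := ⌊L⌋₊ + 1 with hK
  have hpt : ∀ ρ ∈ (Z_fin T).toFinset, m ρ * Real.exp (L / 4 * |ρ.re - 1 / 2|) ≤
      ∑ k ∈ Finset.range K, (if (k : ℝ) / L ≤ |ρ.re - 1 / 2| then
        m ρ * Real.exp (((k : ℝ) + 1) / 4) else 0) := by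
    intro ρ hρ
    rw [Set.Finite.mem_toFinset] at hρ
    obtain ⟨_, h2, h3, _, _⟩ := hρ
    have hβ : |ρ.re - 1 / 2| ≤ 1 / 2 := by
      rw [abs_le]; constructor <;> linarith
    set β := |ρ.re - 1 / 2| with hβd
    have hβ0 : 0 ≤ β := abs_nonneg _
    have hLβ : 0 ≤ L * β := by positivity
    set k := ⌊L * β⌋₊ with hk
    have hk1 : (k : ℝ) ≤ L * β := Nat.floor_le hLβ
    have hk2 : L * β < k + 1 := Nat.lt_floor_add_one _
    have hkK : k ∈ Finset.range K := by
      rw [Finset.mem_range, hK]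
      have : k ≤ ⌊L⌋₊ := by
        apply Nat.floor_le_floor
        nlinarith
      omega
    have hterm : m ρ * Real.exp (L / 4 * β) ≤
        (if (k : ℝ) / L ≤ β then m ρ * Real.exp (((k : ℝ) + 1) / 4) else 0) := by
      rw [if_pos (by rw [div_le_iff₀ hlog]; linarith)]
      refine mul_le_mul_of_nonneg_left (Real.exp_le_exp.mpr ?_) (m_nonneg ρ)
      linarith
    refine hterm.trans ?_
    refine Finset.single_le_sum (f := fun k : ℕ => (if (k : ℝ) / L ≤ β then
      m ρ * Real.exp (((k : ℝ) + 1) / 4) else 0)) ?_ hkK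
    intro j _
    show (0 : ℝ) ≤ if (j : ℝ) / L ≤ β then m ρ * Real.exp (((j : ℝ) + 1) / 4) else 0
    split_ifs
    · exact mul_nonneg (m_nonneg ρ) (Real.exp_pos _).le
    · exact le_rfl
  refine (Finset.sum_le_sum hpt).trans ?_
  rw [Finset.sum_comm]
  have hk : ∀ k ∈ Finset.range K, ∑ ρ ∈ (Z_fin T).toFinset,
      (if (k : ℝ) / L ≤ |ρ.re - 1 / 2| then m ρ * Real.exp (((k : ℝ) + 1) / 4) else 0) ≤
      Real.exp (1 / 4) * C₁ * cnt (Z T) * q ^ k := by
    intro k _
    have h0 : (0 : ℝ) ≤ k := Nat.cast_nonneg _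
    have hn := hnear T k hT h0
    have hfin : {ρ | ρ ∈ Z T ∧ (k : ℝ) / Real.log T ≤ |ρ.re - 1 / 2|}.Finite :=
      (Z_fin T).subset fun _ h => h.1
    rw [cnt_eq hfin] at hn
    have e1 : ∑ ρ ∈ (Z_fin T).toFinset,
        (if (k : ℝ) / L ≤ |ρ.re - 1 / 2| then m ρ * Real.exp (((k : ℝ) + 1) / 4) else 0) =
        (∑ ρ ∈ hfin.toFinset, m ρ) * Real.exp (((k : ℝ) + 1) / 4) := by
      rw [← Finset.sum_filter, Finset.sum_mul]
      refine Finset.sum_congr ?_ fun _ _ => rfl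
      ext ρ
      simp only [Finset.mem_filter, Set.Finite.mem_toFinset, Set.mem_ofPred_eq]
      exact Iff.rfl
    rw [e1]
    have e2 : Real.exp (-(1 * (k : ℝ))) * Real.exp (((k : ℝ) + 1) / 4) =
        Real.exp (1 / 4) * q ^ k := by
      rw [hq, ← Real.exp_nat_mul, ← Real.exp_add, ← Real.exp_add]
      congr 1
      ring
    calc (∑ ρ ∈ hfin.toFinset, m ρ) * Real.exp (((k : ℝ) + 1) / 4)
        ≤ (C₁ * Real.exp (-(1 * (k : ℝ))) * cnt (Z T)) * Real.exp (((k : ℝ) + 1) / 4) :=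
          mul_le_mul_of_nonneg_right hn (Real.exp_pos _).le
      _ = C₁ * cnt (Z T) * (Real.exp (-(1 * (k : ℝ))) * Real.exp (((k : ℝ) + 1) / 4)) := by ring
      _ = _ := by rw [e2]; ring
  refine (Finset.sum_le_sum hk).trans ?_
  rw [← Finset.mul_sum]
  have hgeom : ∑ k ∈ Finset.range K, q ^ k ≤ (1 - q)⁻¹ := by
    have hs := summable_geometric_of_lt_one hq0.le hq1
    rw [← tsum_geometric_of_lt_one hq0.le hq1]
    exact hs.sum_le_tsum _ fun _ _ => by positivity
  have hZ := cnt_nonneg (Z T)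
  have hc := hcnt T hT
  have hinv : 0 ≤ (1 - q)⁻¹ := inv_nonneg.mpr (by linarith)
  calc Real.exp (1 / 4) * C₁ * cnt (Z T) * ∑ k ∈ Finset.range K, q ^ k
      ≤ Real.exp (1 / 4) * C₁ * (C₂ * T * L) * (1 - q)⁻¹ := by
        apply mul_le_mul _ hgeom (Finset.sum_nonneg fun _ _ => by positivity) (by positivity)
        exact mul_le_mul_of_nonneg_left hc (by positivity)
    _ = _ := by ring

theorem expw : S_EXPW := by
  classical
  obtain ⟨C, hC, hmom⟩ := zeta_moment
  refine ⟨32 * C, 10, by positivity, le_rfl, fun T hT B hB => ?_⟩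
  have hTp : 0 < T := by linarith
  set T' := 8 * T with hT'
  have hlT : 0 < Real.log T := Real.log_pos (by linarith)
  have hlog : Real.log T ≤ Real.log T' := Real.log_le_log hTp (by linarith)
  have hlog2 : Real.log T' ≤ 2 * Real.log T := by
    have : (2 : ℝ) * Real.log T = Real.log (T ^ 2) := by
      rw [Real.log_pow]
      norm_num
    rw [this]
    apply Real.log_le_log (by positivity)
    nlinarith
  set g : ℂ → ℝ := fun ρ => m ρ * Real.exp (Real.log T' / 4 * |ρ.re - 1 / 2|) with hg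
  have hg0 : ∀ ρ, 0 ≤ g ρ := fun ρ => mul_nonneg (m_nonneg ρ) (Real.exp_pos _).le
  set f : ℂ → ℝ := fun b => mu b * Real.exp (Real.log T / 4 * |b.re|) with hf
  have hmu0 : ∀ b, 0 ≤ mu b := fun b => Nat.cast_nonneg _
  have hS := hmom T' (by linarith)
  -- comparison
  have hcomp : ∀ b : ℂ, Yz b = 0 → 0 < b.im → f b ≤ g (1 / 2 + b) := by
    intro b hb hbi
    rw [hf, hg]
    simp only
    rw [mu_eq hbi.ne' (re_bound hb).1, Pool.Agent.H862.VK.half_re]
    refine mul_le_mul_of_nonneg_left (Real.exp_le_exp.mpr ?_) (m_nonneg _)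
    rw [add_sub_cancel_left]
    refine mul_le_mul_of_nonneg_right ?_ (abs_nonneg _)
    linarith
  have hfneg : ∀ b : ℂ, f (-b) = f b := by
    intro b
    rw [hf]
    simp only
    rw [mu_neg, neg_re, abs_neg]
  -- a part of the zeros, in the upper half plane
  have hpart : ∀ S : Finset ℂ, (∀ b ∈ S, Yz b = 0 ∧ 0 < b.im ∧ b.im ≤ T') →
      ∑ b ∈ S, f b ≤ C * T' * Real.log T' := by
    intro S hSb
    refine le_trans ?_ hS
    calc ∑ b ∈ S, f b ≤ ∑ b ∈ S, g (1 / 2 + b) :=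
          Finset.sum_le_sum fun b hb => hcomp b (hSb b hb).1 (hSb b hb).2.1
      _ = ∑ ρ ∈ S.image (fun b => 1 / 2 + b), g ρ := by
          rw [Finset.sum_image]
          intro x _ y _ hxy
          exact add_left_cancel hxy
      _ ≤ ∑ ρ ∈ (Z_fin T').toFinset, g ρ := by
          refine Finset.sum_le_sum_of_subset_of_nonneg ?_ fun _ _ _ => hg0 _
          intro ρ hρ
          obtain ⟨b, hb, rfl⟩ := Finset.mem_image.mp hρ
          rw [Set.Finite.mem_toFinset]
          exact mem_Z (hSb b hb).1 (hSb b hb).2.1 (hSb b hb).2.2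
  have hsplit := Finset.sum_filter_add_sum_filter_not B (fun b : ℂ => 0 < b.im) f
  have h1 : ∑ b ∈ B.filter (fun b : ℂ => 0 < b.im), f b ≤ C * T' * Real.log T' := by
    apply hpart
    intro b hb
    rw [Finset.mem_filter] at hb
    obtain ⟨h2, -, h4⟩ := hB b hb.1
    exact ⟨h2, hb.2, (le_abs_self _).trans h4⟩
  have h2 : ∑ b ∈ B.filter (fun b : ℂ => ¬ 0 < b.im), f b ≤ C * T' * Real.log T' := by
    have e : ∑ b ∈ B.filter (fun b : ℂ => ¬ 0 < b.im), f b =
        ∑ b ∈ (B.filter (fun b : ℂ => ¬ 0 < b.im)).image (fun b => -b), f b := by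
      rw [Finset.sum_image (fun x _ y _ hxy => neg_injective hxy)]
      exact Finset.sum_congr rfl fun b _ => (hfneg b).symm
    rw [e]
    apply hpart
    intro b' hb'
    obtain ⟨b, hb, rfl⟩ := Finset.mem_image.mp hb'
    rw [Finset.mem_filter] at hb
    obtain ⟨h3, h4, h5⟩ := hB b hb.1
    have h6 : b.im ≤ 0 := not_lt.mp hb.2
    rw [abs_of_nonpos h6] at h4 h5
    refine ⟨by rw [Yz_neg]; exact h3, ?_, ?_⟩
    · rw [neg_im]; linarith
    · rw [neg_im]; exact h5
  have h3 : ∑ b ∈ B, f b ≤ 2 * (C * T' * Real.log T') := by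
    rw [← hsplit]
    linarith
  have h4 : 2 * (C * T' * Real.log T') ≤ 32 * C * T * Real.log T := by
    rw [hT']
    have : C * (8 * T) * Real.log (8 * T) ≤ C * (8 * T) * (2 * Real.log T) :=
      mul_le_mul_of_nonneg_left hlog2 (by positivity)
    linarith
  exact h3.trans h4

end Pool.Agent.H548.HP
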