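import Pool.Agent.H466.HP.Stm4

/-!
# Consequences of the saddle point data for the half transform
-/

set_option autoImplicit false

namespace Pool.Agent.H548.HP

open Complex MeasureTheory Set Filter Topology
open scoped ComplexConjugate
open Pool.Agent.H466.HF Pool.Agent.H466.LD Pool.Agent.H466.HP

/-- Gaussian centred at `s0` -/
noncomputable def gg (s0 lam k v : ℝ) : ℝ := Real.exp (-((v - s0) ^ 2 / lam / k))

lemma gg_pos (s0 lam k v : ℝ) : 0 < gg s0 lam k v := Real.exp_pos _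

lemma gg_int {s0 lam k : ℝ} (hl : 0 < lam) (hk : 0 < k) :
    Integrable (gg s0 lam k) ∧ ∫ v, gg s0 lam k v = Real.sqrt (Real.pi * (k * lam)) := by
  have hb : 0 < 1 / (k * lam) := by positivity
  have h1 : Integrable (fun v : ℝ => Real.exp (-(1 / (k * lam)) * v ^ 2)) :=
    integrable_exp_neg_mul_sq hb
  have e : gg s0 lam k = fun v : ℝ => Real.exp (-(1 / (k * lam)) * (v - s0) ^ 2) := by
    funext v
    unfold gg
    congr 1
    field_simp
  rw [e]
  refine ⟨h1.comp_sub_right s0, ?_⟩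
  rw [integral_sub_right_eq_self (fun v : ℝ => Real.exp (-(1 / (k * lam)) * v ^ 2)),
    integral_gaussian]
  congr 1
  field_simp

lemma gg_int12 {s0 lam : ℝ} (hl : 0 < lam) :
    ∫ v, gg s0 lam 12 v ≤ 7 / 4 * Real.sqrt (Real.pi * (4 * lam)) := by
  rw [(gg_int hl (by norm_num : (0:ℝ) < 12)).2]
  have h1 : (7 / 4 : ℝ) * Real.sqrt (Real.pi * (4 * lam)) =
      Real.sqrt ((7 / 4) ^ 2 * (Real.pi * (4 * lam))) := by
    rw [Real.sqrt_mul (by norm_num : (0:ℝ) ≤ (7 / 4) ^ 2), Real.sqrt_sq (by norm_num)]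
  rw [h1]
  apply Real.sqrt_le_sqrt
  have : 0 < Real.pi * lam := mul_pos Real.pi_pos hl
  nlinarith

/-- `exp (-10) ≤ 1 / 1000` -/
lemma exp_neg_ten : Real.exp (-10) ≤ 1 / 1000 := by
  have h1 : (1000 : ℝ) ≤ Real.exp 10 := by
    have h2 : (2 : ℝ) ≤ Real.exp 1 := by linarith [Real.add_one_le_exp (1 : ℝ)]
    have h3 : Real.exp 10 = Real.exp 1 ^ 10 := by
      rw [← Real.exp_nat_mul]
      norm_num
    rw [h3]
    calc (1000 : ℝ) ≤ 2 ^ 10 := by norm_num
      _ ≤ Real.exp 1 ^ 10 := pow_le_pow_left₀ (by norm_num) h2 10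
  rw [Real.exp_neg, inv_eq_one_div]
  exact one_div_le_one_div_of_le (by norm_num) h1

lemma exp_two_le : Real.exp 2 ≤ 37 / 5 := by
  have h1 := Real.exp_one_lt_d9
  have h2 : Real.exp 2 = Real.exp 1 * Real.exp 1 := by
    rw [← Real.exp_add]
    norm_num
  have h3 := Real.exp_pos 1
  rw [h2]
  nlinarith

section main

variable {t0 lam : ℝ} {w : ℂ} {s s0 κ1 : ℝ}

lemma rnn (D : Sd t0 lam w s s0 κ1) (v : ℝ) : 0 ≤ (v - s0) ^ 2 / lam :=
  div_nonneg (sq_nonneg _) D.lam0.le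

lemma Zbig (D : Sd t0 lam w s s0 κ1) : 1000 ≤ s ^ 2 / lam := by
  rw [le_div_iff₀ D.lam0]
  exact D.big

/-- near zero: two-sided bound for the distance to the saddle point -/
lemma rlow (D : Sd t0 lam w s s0 κ1) {v : ℝ} (hv : v ≤ s / 16) :
    84 / 100 * (s ^ 2 / lam) ≤ (v - s0) ^ 2 / lam := by
  have h1 := abs_le.mp D.s0s
  have h2 := D.sp
  rw [mul_div_assoc', div_le_div_iff_of_pos_right D.lam0]
  nlinarith

lemma rupp (D : Sd t0 lam w s s0 κ1) {v : ℝ} (hv0 : 0 ≤ v) (hv : v ≤ s / 16) :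
    (v - s0) ^ 2 / lam ≤ 1041 / 1000 * (s ^ 2 / lam) := by
  have h1 := abs_le.mp D.s0s
  have h2 := D.sp
  rw [mul_div_assoc', div_le_div_iff_of_pos_right D.lam0]
  nlinarith

lemma g4_low (D : Sd t0 lam w s s0 κ1) {v : ℝ} (hv : v ≤ s / 16) :
    gg s0 lam 4 v ≤ 1 / 1000 * gg s0 lam 12 v := by
  have h1 := rlow D hv
  have h2 := Zbig D
  refine le_trans ?_ (mul_le_mul_of_nonneg_right exp_neg_ten (gg_pos s0 lam 12 v).le)
  unfold gg
  rw [← Real.exp_add]
  apply Real.exp_le_exp.mpr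
  linarith

lemma E_left (D : Sd t0 lam w s s0 κ1) {v : ℝ} (hv0 : 0 ≤ v) (hv : v ≤ s / 16) :
    ‖Ev t0 lam w v‖ ≤ 1 / 1000 * gg s0 lam 12 v * ‖Ev t0 lam w s0‖ := by
  refine (D.left v hv0 hv).trans (mul_le_mul_of_nonneg_right ?_ (norm_nonneg _))
  have h1 := rupp D hv0 hv
  have h2 := Zbig D
  refine le_trans ?_ (mul_le_mul_of_nonneg_right exp_neg_ten (gg_pos s0 lam 12 v).le)
  unfold gg
  rw [← Real.exp_add]
  apply Real.exp_le_exp.mpr
  linarith

lemma E_right (D : Sd t0 lam w s s0 κ1) (hκ : κ1 ≤ 1 / 1000) (hκ0 : 0 ≤ κ1) {v : ℝ}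
    (hv : s / 16 ≤ v) :
    ‖Ev t0 lam w v - Ev t0 lam w s0 * ((gg s0 lam 4 v : ℝ) : ℂ)‖ ≤
      9 / 1000 * gg s0 lam 12 v * ‖Ev t0 lam w s0‖ := by
  have h := D.right v hv
  have e1 : -(v - s0) ^ 2 / (4 * lam) = -((v - s0) ^ 2 / lam / 4) := by
    have := D.lam0.ne'
    field_simp
  have e2 : -(v - s0) ^ 2 / (5 * lam) = -((v - s0) ^ 2 / lam / 5) := by
    have := D.lam0.ne'
    field_simp
  rw [e1, e2] at h
  refine h.trans (mul_le_mul_of_nonneg_right ?_ (norm_nonneg _))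
  have hr := rnn D v
  set r := (v - s0) ^ 2 / lam with hrdef
  have h3 : r * Real.exp (-(r / 5)) ≤ 60 / 7 * gg s0 lam 12 v := by
    have h4 : r ≤ 60 / 7 * Real.exp (7 * r / 60) := by
      have := Real.add_one_le_exp (7 * r / 60)
      linarith
    have h5 : Real.exp (7 * r / 60) * Real.exp (-(r / 5)) = gg s0 lam 12 v := by
      unfold gg
      rw [← Real.exp_add]
      congr 1
      rw [← hrdef]
      ring
    calc r * Real.exp (-(r / 5)) ≤ (60 / 7 * Real.exp (7 * r / 60)) * Real.exp (-(r / 5)) :=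
          mul_le_mul_of_nonneg_right h4 (Real.exp_pos _).le
      _ = 60 / 7 * gg s0 lam 12 v := by rw [mul_assoc, h5]
  have h6 := gg_pos s0 lam 12 v
  calc κ1 * r * Real.exp (-(r / 5)) = κ1 * (r * Real.exp (-(r / 5))) := by ring
    _ ≤ κ1 * (60 / 7 * gg s0 lam 12 v) := mul_le_mul_of_nonneg_left h3 hκ0
    _ ≤ 1 / 1000 * (60 / 7 * gg s0 lam 12 v) := mul_le_mul_of_nonneg_right hκ (by positivity)
    _ ≤ 9 / 1000 * gg s0 lam 12 v := by linarith

/-- the bound for `Ev` on the right half line -/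
lemma E_bd (D : Sd t0 lam w s s0 κ1) (hκ : κ1 ≤ 1 / 1000) (hκ0 : 0 ≤ κ1) {v : ℝ} (hv : 0 ≤ v) :
    ‖Ev t0 lam w v‖ ≤ (gg s0 lam 4 v + 9 / 1000 * gg s0 lam 12 v) * ‖Ev t0 lam w s0‖ := by
  have hg4 := gg_pos s0 lam 4 v
  have hg12 := gg_pos s0 lam 12 v
  rcases le_total v (s / 16) with h | h
  · refine (E_left D hv h).trans (mul_le_mul_of_nonneg_right ?_ (norm_nonneg _))
    linarith
  · have h1 := E_right D hκ hκ0 h
    have h2 : Ev t0 lam w v = (Ev t0 lam w v - Ev t0 lam w s0 * ((gg s0 lam 4 v : ℝ) : ℂ)) +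
        Ev t0 lam w s0 * ((gg s0 lam 4 v : ℝ) : ℂ) := by ring
    rw [h2]
    refine (norm_add_le _ _).trans ?_
    rw [norm_mul, Complex.norm_real, Real.norm_eq_abs, abs_of_pos hg4]
    linarith

lemma E_cont (t0 lam : ℝ) (w : ℂ) : Continuous (Ev t0 lam w) := by
  obtain ⟨A, k⟩ := gk_kern
  have h := (k.differentiable 0).continuous
  unfold Ev
  refine (h.comp (by fun_prop)).mul ?_
  fun_prop

lemma E_int (D : Sd t0 lam w s s0 κ1) (hκ : κ1 ≤ 1 / 1000) (hκ0 : 0 ≤ κ1) :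
    IntegrableOn (Ev t0 lam w) (Ioi 0) := by
  have i4 := (gg_int (s0 := s0) D.lam0 (by norm_num : (0:ℝ) < 4)).1
  have i12 := (gg_int (s0 := s0) D.lam0 (by norm_num : (0:ℝ) < 12)).1
  have i := ((i4.add (i12.const_mul (9 / 1000))).mul_const ‖Ev t0 lam w s0‖).integrableOn
    (s := Ioi (0:ℝ))
  refine i.mono' (E_cont t0 lam w).aestronglyMeasurable ?_
  refine (ae_restrict_iff' measurableSet_Ioi).mpr (Eventually.of_forall fun v hv => ?_)
  exact E_bd D hκ hκ0 (le_of_lt hv)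

lemma Spos (hl : 0 < lam) : 0 < Real.sqrt (Real.pi * (4 * lam)) := by
  have := Real.pi_pos
  positivity

/-- a bound for an integral over the half line -/
lemma half_bd {F : ℝ → ℂ} {a b N : ℝ} (hl : 0 < lam) (ha : 0 ≤ a) (hb : 0 ≤ b) (hN : 0 ≤ N)
    (h : ∀ v : ℝ, 0 < v → ‖F v‖ ≤ (a * gg s0 lam 4 v + b * gg s0 lam 12 v) * N) :
    ‖((1 / Real.sqrt (Real.pi * (4 * lam)) : ℝ) : ℂ) * ∫ v in Ioi (0 : ℝ), F v‖ ≤
      (a + 7 / 4 * b) * N := by
  have hS := Spos hl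
  set S := Real.sqrt (Real.pi * (4 * lam)) with hSdef
  obtain ⟨i4, e4⟩ := gg_int (s0 := s0) hl (by norm_num : (0:ℝ) < 4)
  have i12 := (gg_int (s0 := s0) hl (by norm_num : (0:ℝ) < 12)).1
  have e12 := gg_int12 (s0 := s0) hl
  have i := ((i4.const_mul a).add (i12.const_mul b)).mul_const N
  have h1 : ‖∫ v in Ioi (0 : ℝ), F v‖ ≤
      ∫ v in Ioi (0 : ℝ), (a * gg s0 lam 4 v + b * gg s0 lam 12 v) * N := by
    refine norm_integral_le_of_norm_le i.integrableOn ?_
    exact (ae_restrict_iff' measurableSet_Ioi).mpr (Eventually.of_forall fun v hv => h v hv)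
  have h2 : ∫ v in Ioi (0 : ℝ), (a * gg s0 lam 4 v + b * gg s0 lam 12 v) * N ≤
      ∫ v, (a * gg s0 lam 4 v + b * gg s0 lam 12 v) * N := by
    refine setIntegral_le_integral i (Eventually.of_forall fun v => ?_)
    have hg4 := gg_pos s0 lam 4 v
    have hg12 := gg_pos s0 lam 12 v
    exact mul_nonneg (by positivity) hN
  have h3 : ∫ v, (a * gg s0 lam 4 v + b * gg s0 lam 12 v) * N ≤ (a * S + b * (7 / 4 * S)) * N := by
    rw [integral_mul_const, integral_add (i4.const_mul a) (i12.const_mul b), integral_const_mul,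
      integral_const_mul, e4]
    refine mul_le_mul_of_nonneg_right ?_ hN
    have := mul_le_mul_of_nonneg_left e12 hb
    linarith
  rw [norm_mul, Complex.norm_real, Real.norm_eq_abs, abs_of_pos (by positivity)]
  have h4 := (h1.trans h2).trans h3
  calc 1 / S * ‖∫ v in Ioi (0 : ℝ), F v‖ ≤ 1 / S * ((a * S + b * (7 / 4 * S)) * N) :=
        mul_le_mul_of_nonneg_left h4 (by positivity)
    _ = (a + 7 / 4 * b) * N := by field_simp

lemma AA_eq (t0 lam : ℝ) (w : ℂ) : AA (LL gk 0) t0 lam w =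
    ((1 / Real.sqrt (Real.pi * (4 * lam)) : ℝ) : ℂ) * ∫ v in Ioi (0 : ℝ), Ev t0 lam w v := rfl

/-- the finer bound for `Ev` on the right half line -/
lemma E_bd6 (D : Sd t0 lam w s s0 κ1) (hκ : κ1 ≤ 1 / 1000) (hκ0 : 0 ≤ κ1) {v : ℝ} (hv : 0 ≤ v) :
    ‖Ev t0 lam w v‖ ≤ 103 / 100 * Real.exp (-((v - s0) ^ 2 / lam / 6)) * ‖Ev t0 lam w s0‖ := by
  have hr := rnn D v
  rcases le_total v (s / 16) with h | h
  · refine (D.left v hv h).trans (mul_le_mul_of_nonneg_right ?_ (norm_nonneg _))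
    have h1 := rupp D hv h
    have h2 := Zbig D
    have h3 : Real.exp (-(19 / 100 * (s ^ 2 / lam))) ≤ Real.exp (-((v - s0) ^ 2 / lam / 6)) := by
      apply Real.exp_le_exp.mpr
      linarith
    have h4 := Real.exp_pos (-((v - s0) ^ 2 / lam / 6))
    linarith
  · have h0 := D.right v h
    have e1 : -(v - s0) ^ 2 / (4 * lam) = -((v - s0) ^ 2 / lam / 4) := by
      have := D.lam0.ne'
      field_simp
    have e2 : -(v - s0) ^ 2 / (5 * lam) = -((v - s0) ^ 2 / lam / 5) := by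
      have := D.lam0.ne'
      field_simp
    rw [e1, e2] at h0
    set r := (v - s0) ^ 2 / lam with hrdef
    have h3 : r * Real.exp (-(r / 5)) ≤ 30 * Real.exp (-(r / 6)) := by
      have h4 : r ≤ 30 * Real.exp (r / 30) := by
        have := Real.add_one_le_exp (r / 30)
        linarith
      have h5 : Real.exp (r / 30) * Real.exp (-(r / 5)) = Real.exp (-(r / 6)) := by
        rw [← Real.exp_add]
        congr 1
        ring
      calc r * Real.exp (-(r / 5)) ≤ (30 * Real.exp (r / 30)) * Real.exp (-(r / 5)) :=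
            mul_le_mul_of_nonneg_right h4 (Real.exp_pos _).le
        _ = 30 * Real.exp (-(r / 6)) := by rw [mul_assoc, h5]
    have h6 := Real.exp_pos (-(r / 6))
    have h7 : κ1 * r * Real.exp (-(r / 5)) ≤ 3 / 100 * Real.exp (-(r / 6)) := by
      calc κ1 * r * Real.exp (-(r / 5)) = κ1 * (r * Real.exp (-(r / 5))) := by ring
        _ ≤ κ1 * (30 * Real.exp (-(r / 6))) := mul_le_mul_of_nonneg_left h3 hκ0
        _ ≤ 1 / 1000 * (30 * Real.exp (-(r / 6))) := mul_le_mul_of_nonneg_right hκ (by positivity)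
        _ = 3 / 100 * Real.exp (-(r / 6)) := by ring
    have h8 : Real.exp (-(r / 4)) ≤ Real.exp (-(r / 6)) := by
      apply Real.exp_le_exp.mpr
      linarith
    have h9 : Ev t0 lam w v = (Ev t0 lam w v - Ev t0 lam w s0 * ((Real.exp (-(r / 4)) : ℝ) : ℂ)) +
        Ev t0 lam w s0 * ((Real.exp (-(r / 4)) : ℝ) : ℂ) := by ring
    have h10 := norm_nonneg (Ev t0 lam w s0)
    calc ‖Ev t0 lam w v‖ = ‖(Ev t0 lam w v - Ev t0 lam w s0 * ((Real.exp (-(r / 4)) : ℝ) : ℂ)) +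
        Ev t0 lam w s0 * ((Real.exp (-(r / 4)) : ℝ) : ℂ)‖ := by rw [← h9]
      _ ≤ ‖Ev t0 lam w v - Ev t0 lam w s0 * ((Real.exp (-(r / 4)) : ℝ) : ℂ)‖ +
        ‖Ev t0 lam w s0 * ((Real.exp (-(r / 4)) : ℝ) : ℂ)‖ := norm_add_le _ _
      _ ≤ 3 / 100 * Real.exp (-(r / 6)) * ‖Ev t0 lam w s0‖ +
        ‖Ev t0 lam w s0‖ * Real.exp (-(r / 6)) := by
          refine add_le_add (h0.trans (mul_le_mul_of_nonneg_right h7 h10)) ?_
          rw [norm_mul, Complex.norm_real, Real.norm_eq_abs, abs_of_pos (Real.exp_pos _)]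
          exact mul_le_mul_of_nonneg_left h8 h10
      _ = 103 / 100 * Real.exp (-(r / 6)) * ‖Ev t0 lam w s0‖ := by ring

lemma exp_sub_one_bd (z : ℂ) : ‖cexp z - 1‖ ≤ ‖z‖ * Real.exp ‖z‖ := by
  have h := Complex.norm_exp_sub_sum_le_norm_mul_exp z 1
  simpa using h

/-- part (a) -/
lemma partA (D : Sd t0 lam w s s0 κ1) (hκ : κ1 ≤ 1 / 1000) (hκ0 : 0 ≤ κ1) :
    ‖AA (LL gk 0) t0 lam w - Ev t0 lam w s0‖ ≤ 1 / 20 * ‖Ev t0 lam w s0‖ := by
  have hl := D.lam0
  have hS := Spos hl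
  set S := Real.sqrt (Real.pi * (4 * lam)) with hSdef
  set Ω := Ev t0 lam w s0 with hΩ
  have hN := norm_nonneg Ω
  obtain ⟨i4, e4⟩ := gg_int (s0 := s0) hl (by norm_num : (0:ℝ) < 4)
  have i12 := (gg_int (s0 := s0) hl (by norm_num : (0:ℝ) < 12)).1
  have e12 := gg_int12 (s0 := s0) hl
  have iE := E_int D hκ hκ0
  have i4c : Integrable (fun v : ℝ => Ω * ((gg s0 lam 4 v : ℝ) : ℂ)) := i4.ofReal.const_mul Ω
  -- the part on the right
  have hR : ‖((1 / S : ℝ) : ℂ) * ∫ v in Ioi (0 : ℝ),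
      (Ev t0 lam w v - Ω * ((gg s0 lam 4 v : ℝ) : ℂ))‖ ≤ (0 + 7 / 4 * (9 / 1000)) * ‖Ω‖ := by
    refine half_bd (s0 := s0) hl le_rfl (by norm_num) hN fun v hv => ?_
    have hg4 := gg_pos s0 lam 4 v
    have hg12 := gg_pos s0 lam 12 v
    rw [zero_mul, zero_add]
    rcases le_total v (s / 16) with h | h
    · refine (norm_sub_le _ _).trans ?_
      rw [norm_mul, Complex.norm_real, Real.norm_eq_abs, abs_of_pos hg4]
      have h1 := E_left D hv.le h
      have h2 := mul_le_mul_of_nonneg_left (g4_low D h) hN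
      have h3 : 0 ≤ gg s0 lam 12 v * ‖Ω‖ := by positivity
      linarith
    · exact E_right D hκ hκ0 h
  -- the part on the left
  have hL : ∫ v in Iic (0 : ℝ), gg s0 lam 4 v ≤ 1 / 1000 * (7 / 4 * S) := by
    calc ∫ v in Iic (0 : ℝ), gg s0 lam 4 v ≤ ∫ v in Iic (0 : ℝ), 1 / 1000 * gg s0 lam 12 v := by
          refine setIntegral_mono_on i4.integrableOn (i12.const_mul _).integrableOn
            measurableSet_Iic fun v hv => g4_low D ?_
          have := D.sp
          have : v ≤ 0 := hv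
          linarith
      _ ≤ ∫ v, 1 / 1000 * gg s0 lam 12 v := by
          refine setIntegral_le_integral (i12.const_mul _) (Eventually.of_forall fun v => ?_)
          have hg12 := gg_pos s0 lam 12 v
          show 0 ≤ 1 / 1000 * gg s0 lam 12 v
          positivity
      _ ≤ 1 / 1000 * (7 / 4 * S) := by
          rw [integral_const_mul]
          exact mul_le_mul_of_nonneg_left e12 (by norm_num)
  have hL0 : 0 ≤ ∫ v in Iic (0 : ℝ), gg s0 lam 4 v :=
    setIntegral_nonneg measurableSet_Iic fun v _ => (gg_pos s0 lam 4 v).le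
  have hsplit : (∫ v in Iic (0 : ℝ), gg s0 lam 4 v) + ∫ v in Ioi (0 : ℝ), gg s0 lam 4 v = S := by
    rw [hSdef, ← e4]
    exact intervalIntegral.integral_Iic_add_Ioi i4.integrableOn i4.integrableOn
  have hsplitC : (((∫ v in Iic (0 : ℝ), gg s0 lam 4 v : ℝ)) : ℂ) +
      ((∫ v in Ioi (0 : ℝ), gg s0 lam 4 v : ℝ) : ℂ) = (S : ℂ) := by
    rw [← ofReal_add, hsplit]
  have hSc : (S : ℂ) ≠ 0 := by exact_mod_cast hS.ne'
  have key : AA (LL gk 0) t0 lam w - Ω = ((1 / S : ℝ) : ℂ) * (∫ v in Ioi (0 : ℝ),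
      (Ev t0 lam w v - Ω * ((gg s0 lam 4 v : ℝ) : ℂ))) -
      ((1 / S : ℝ) : ℂ) * (Ω * ((∫ v in Iic (0 : ℝ), gg s0 lam 4 v : ℝ) : ℂ)) := by
    have e1 : ∫ v in Ioi (0 : ℝ), (Ev t0 lam w v - Ω * ((gg s0 lam 4 v : ℝ) : ℂ)) =
        (∫ v in Ioi (0 : ℝ), Ev t0 lam w v) -
          Ω * ((∫ v in Ioi (0 : ℝ), gg s0 lam 4 v : ℝ) : ℂ) := by
      rw [integral_sub iE i4c.integrableOn, integral_const_mul, integral_complex_ofReal]
    rw [e1, AA_eq]
    have e2 : ((1 / S : ℝ) : ℂ) = 1 / (S : ℂ) := by push_cast; rfl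
    rw [← hSdef, e2]
    have e3 : Ω = 1 / (S : ℂ) * (Ω * (S : ℂ)) := by field_simp
    nth_rewrite 1 [e3]
    rw [← hsplitC]
    ring
  rw [key]
  refine (norm_sub_le _ _).trans ?_
  have h5 : ‖((1 / S : ℝ) : ℂ) * (Ω * ((∫ v in Iic (0 : ℝ), gg s0 lam 4 v : ℝ) : ℂ))‖ ≤
      7 / 4000 * ‖Ω‖ := by
    rw [norm_mul, norm_mul, Complex.norm_real, Complex.norm_real, Real.norm_eq_abs,
      Real.norm_eq_abs, abs_of_pos (by positivity), abs_of_nonneg hL0]
    calc 1 / S * (‖Ω‖ * ∫ v in Iic (0 : ℝ), gg s0 lam 4 v)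
        ≤ 1 / S * (‖Ω‖ * (1 / 1000 * (7 / 4 * S))) := by gcongr
      _ = 7 / 4000 * ‖Ω‖ := by
          field_simp
          ring
  linarith

/-- part (b) -/
lemma partB (D : Sd t0 lam w s s0 κ1) (hκ : κ1 ≤ 1 / 1000) (hκ0 : 0 ≤ κ1) (hw : 0 ≤ w.re) :
    ‖AA (LL gk 0) t0 lam (-conj w)‖ ≤
      (1 / 20 + 11 / 10 * Real.exp (-(s * w.re / (16 * lam)))) * ‖Ev t0 lam w s0‖ := by
  have hl := D.lam0
  have hN := norm_nonneg (Ev t0 lam w s0)
  set q := Real.exp (-(s * w.re / (16 * lam))) with hq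
  have hq0 : 0 < q := Real.exp_pos _
  have hE : ∀ v : ℝ, ‖Ev t0 lam (-conj w) v‖ = ‖Ev t0 lam w v‖ * Real.exp (-(v * w.re / lam)) := by
    intro v
    unfold Ev
    rw [norm_mul, norm_mul, norm_gk, norm_gk, mul_assoc, ← Real.exp_add]
    congr 2
    have e1 : (-conj w).re = -w.re := by simp
    have e2 : (-conj w).im = w.im := by simp
    rw [e1, e2]
    have := hl.ne'
    field_simp
    ring
  have h := half_bd (s0 := s0) (F := Ev t0 lam (-conj w)) (a := q) (b := q * (9 / 1000) + 1 / 1000)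
    (N := ‖Ev t0 lam w s0‖) hl hq0.le (by positivity) hN ?_
  · rw [AA_eq]
    refine h.trans (mul_le_mul_of_nonneg_right ?_ hN)
    linarith
  · intro v hv
    rw [hE]
    have hg4 := gg_pos s0 lam 4 v
    have hg12 := gg_pos s0 lam 12 v
    rcases le_total v (s / 16) with hvs | hvs
    · have h1 : Real.exp (-(v * w.re / lam)) ≤ 1 := by
        rw [Real.exp_le_one_iff]
        have : 0 ≤ v * w.re / lam := by positivity
        linarith
      calc ‖Ev t0 lam w v‖ * Real.exp (-(v * w.re / lam)) ≤ ‖Ev t0 lam w v‖ * 1 :=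
            mul_le_mul_of_nonneg_left h1 (norm_nonneg _)
        _ = ‖Ev t0 lam w v‖ := mul_one _
        _ ≤ 1 / 1000 * gg s0 lam 12 v * ‖Ev t0 lam w s0‖ := E_left D hv.le hvs
        _ ≤ _ := by
            refine mul_le_mul_of_nonneg_right ?_ hN
            have : 0 ≤ q * gg s0 lam 4 v := by positivity
            have : 0 ≤ q * (9 / 1000) * gg s0 lam 12 v := by positivity
            linarith
    · have h1 : Real.exp (-(v * w.re / lam)) ≤ q := by
        rw [hq]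
        apply Real.exp_le_exp.mpr
        have h2 : s * w.re / (16 * lam) = (s / 16) * w.re / lam := by
          have := hl.ne'
          field_simp
        rw [h2, neg_le_neg_iff]
        gcongr
      calc ‖Ev t0 lam w v‖ * Real.exp (-(v * w.re / lam)) ≤
            ((gg s0 lam 4 v + 9 / 1000 * gg s0 lam 12 v) * ‖Ev t0 lam w s0‖) * q :=
            mul_le_mul (E_bd D hκ hκ0 hv.le) h1 (Real.exp_pos _).le (by positivity)
        _ = (q * gg s0 lam 4 v + q * (9 / 1000) * gg s0 lam 12 v) * ‖Ev t0 lam w s0‖ := by ring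
        _ ≤ _ := by
            refine mul_le_mul_of_nonneg_right ?_ hN
            linarith

/-- part (c) -/
lemma partC (D : Sd t0 lam w s s0 κ1) (hκ : κ1 ≤ 1 / 1000) (hκ0 : 0 ≤ κ1) (h : ℂ)
    (hh : ‖h‖ ^ 2 ≤ lam) :
    ‖AA (LL gk 0) t0 lam (w + h) * cexp (h ^ 2 / (4 * lam) - ((s0 : ℂ) - w) / (2 * lam) * h) -
      AA (LL gk 0) t0 lam w‖ ≤ 20 * (‖h‖ / Real.sqrt lam) * ‖Ev t0 lam w s0‖ := by
  have hl := D.lam0
  have hlc : (lam : ℂ) ≠ 0 := by exact_mod_cast hl.ne'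
  have hN := norm_nonneg (Ev t0 lam w s0)
  have hsq : 0 < Real.sqrt lam := Real.sqrt_pos.mpr hl
  have hsq2 : Real.sqrt lam ^ 2 = lam := Real.sq_sqrt hl.le
  set Y := ‖h‖ / Real.sqrt lam with hY
  have hY0 : 0 ≤ Y := by positivity
  have hY1 : Y ≤ 1 := by
    rw [hY, div_le_one hsq]
    exact Real.le_sqrt_of_sq_le hh
  set C := cexp (h ^ 2 / (4 * lam) - ((s0 : ℂ) - w) / (2 * lam) * h) with hC
  set F : ℝ → ℂ := fun v => Ev t0 lam w v * (cexp (h * ((v : ℂ) - s0) / (2 * lam)) - 1) with hF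
  have hFE : ∀ v : ℝ, Ev t0 lam (w + h) v * C = Ev t0 lam w v + F v := by
    intro v
    rw [hF]
    simp only
    have e1 : cexp (-((v : ℂ) - (w + h)) ^ 2 / (4 * lam)) * C =
        cexp (-((v : ℂ) - w) ^ 2 / (4 * lam)) * cexp (h * ((v : ℂ) - s0) / (2 * lam)) := by
      rw [hC, ← Complex.exp_add, ← Complex.exp_add]
      congr 1
      field_simp
      ring
    unfold Ev
    rw [mul_assoc, e1]
    ring
  have hFb : ∀ v : ℝ, 0 < v → ‖F v‖ ≤
      (0 * gg s0 lam 4 v + (8 * Y) * gg s0 lam 12 v) * ‖Ev t0 lam w s0‖ := by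
    intro v hv
    have hr := rnn D v
    set r := (v - s0) ^ 2 / lam with hrdef
    set X := |v - s0| / Real.sqrt lam with hX
    have hX0 : 0 ≤ X := by positivity
    have hX2 : X ^ 2 = r := by
      rw [hX, div_pow, sq_abs, hsq2]
    have hz : ‖h * ((v : ℂ) - s0) / (2 * lam)‖ = Y * (X / 2) := by
      rw [norm_div, norm_mul, norm_mul, Complex.norm_real, Real.norm_eq_abs, abs_of_pos hl]
      have e1 : ‖(v : ℂ) - s0‖ = |v - s0| := by
        rw [← ofReal_sub, Complex.norm_real, Real.norm_eq_abs]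
      rw [e1, Complex.norm_ofNat, hY, hX]
      have e2 : lam = Real.sqrt lam * Real.sqrt lam := by
        rw [← sq, hsq2]
      nth_rewrite 1 [e2]
      field_simp
    have h1 : ‖cexp (h * ((v : ℂ) - s0) / (2 * lam)) - 1‖ ≤ Y * Real.exp (2 + r / 12) := by
      refine (exp_sub_one_bd _).trans ?_
      rw [hz]
      have h2 : Y * (X / 2) ≤ X / 2 := by nlinarith
      have h3 : X / 2 ≤ Real.exp (X / 2 - 1) := by
        have := Real.add_one_le_exp (X / 2 - 1)
        linarith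
      have h4 : X ≤ 3 + r / 12 := by
        rw [← hX2]
        nlinarith [sq_nonneg (X - 6)]
      calc Y * (X / 2) * Real.exp (Y * (X / 2)) ≤ Y * (X / 2) * Real.exp (X / 2) :=
            mul_le_mul_of_nonneg_left (Real.exp_le_exp.mpr h2) (by positivity)
        _ ≤ Y * Real.exp (X / 2 - 1) * Real.exp (X / 2) := by gcongr
        _ = Y * Real.exp (X - 1) := by
            rw [mul_assoc, ← Real.exp_add]
            congr 2
            ring
        _ ≤ Y * Real.exp (2 + r / 12) := by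
            refine mul_le_mul_of_nonneg_left (Real.exp_le_exp.mpr ?_) hY0
            linarith
    have h5 := E_bd6 D hκ hκ0 hv.le
    rw [← hrdef] at h5
    have h6 : Real.exp (-(r / 6)) * Real.exp (2 + r / 12) = Real.exp 2 * gg s0 lam 12 v := by
      unfold gg
      rw [← Real.exp_add, ← Real.exp_add, ← hrdef]
      congr 1
      ring
    have h7 := exp_two_le
    have hg12 := gg_pos s0 lam 12 v
    rw [hF]
    simp only
    rw [norm_mul]
    calc ‖Ev t0 lam w v‖ * ‖cexp (h * ((v : ℂ) - s0) / (2 * lam)) - 1‖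
        ≤ (103 / 100 * Real.exp (-(r / 6)) * ‖Ev t0 lam w s0‖) * (Y * Real.exp (2 + r / 12)) :=
          mul_le_mul h5 h1 (norm_nonneg _) (by positivity)
      _ = 103 / 100 * (Real.exp (-(r / 6)) * Real.exp (2 + r / 12)) * Y * ‖Ev t0 lam w s0‖ := by
          ring
      _ = 103 / 100 * (Real.exp 2 * gg s0 lam 12 v) * Y * ‖Ev t0 lam w s0‖ := by rw [h6]
      _ ≤ 103 / 100 * ((37 / 5) * gg s0 lam 12 v) * Y * ‖Ev t0 lam w s0‖ := by gcongr
      _ ≤ (0 * gg s0 lam 4 v + (8 * Y) * gg s0 lam 12 v) * ‖Ev t0 lam w s0‖ := by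
          have : 0 ≤ gg s0 lam 12 v * Y * ‖Ev t0 lam w s0‖ := by positivity
          nlinarith
  have iE := E_int D hκ hκ0
  have iF : IntegrableOn F (Ioi 0) := by
    have i12 := (gg_int (s0 := s0) hl (by norm_num : (0:ℝ) < 12)).1
    have i4 := (gg_int (s0 := s0) hl (by norm_num : (0:ℝ) < 4)).1
    have i := (((i4.const_mul 0).add (i12.const_mul (8 * Y))).mul_const
      ‖Ev t0 lam w s0‖).integrableOn (s := Ioi (0:ℝ))
    refine i.mono' ?_ ?_
    · have h1 := E_cont t0 lam w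
      have h2 : Continuous F := by
        rw [hF]
        refine h1.mul ?_
        fun_prop
      exact h2.aestronglyMeasurable
    · exact (ae_restrict_iff' measurableSet_Ioi).mpr (Eventually.of_forall fun v hv => hFb v hv)
  have key : AA (LL gk 0) t0 lam (w + h) * C - AA (LL gk 0) t0 lam w =
      ((1 / Real.sqrt (Real.pi * (4 * lam)) : ℝ) : ℂ) * ∫ v in Ioi (0 : ℝ), F v := by
    rw [AA_eq, AA_eq, mul_assoc, ← integral_mul_const]
    simp_rw [hFE]
    rw [integral_add iE iF]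
    ring
  rw [key]
  refine (half_bd (s0 := s0) hl le_rfl (by positivity) hN hFb).trans ?_
  refine mul_le_mul_of_nonneg_right ?_ hN
  linarith

end main

theorem half : S_HALF := by
  intro t0 lam w s s0 κ1 D hκ hκ0 hw
  exact ⟨partA D hκ hκ0, partB D hκ hκ0 hw, fun h hh => partC D hκ hκ0 h hh⟩

end Pool.Agent.H548.HP
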